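import Mathlib
import Pool.Agent.Helper64.LN.GoalsC

set_option autoImplicit false

/-!
# Project LN, packet EX3: non-planar ends do not become planar
-/

open Topology Set Metric

namespace Pool.Agent.Helper39.LN

open Pool.Agent.Helper64.LN

/-- The clamp. -/
noncomputable def cl (s : ℝ) : ℝ := max 0 (min 1 (2 * (s - 3 / 4)))

theorem continuous_cl : Continuous cl := by
  unfold cl
  fun_prop

theorem cl_low {s : ℝ} (h : s ≤ 3 / 4) : cl s = 0 := by
  unfold cl
  rw [max_eq_left]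
  exact (min_le_right _ _).trans (by linarith)

theorem cl_high {s : ℝ} (h : 5 / 4 ≤ s) : cl s = 1 := by
  unfold cl
  rw [min_eq_left (by linarith), max_eq_right zero_le_one]

theorem coe_eq_half {x : ℝ}
    (h : ((x : ℝ) : AddCircle (1 : ℝ)) = ((1 / 2 : ℝ) : AddCircle (1 : ℝ))) :
    ∃ n : ℤ, x = n + 1 / 2 := by
  have h1 : ((x - 1 / 2 : ℝ) : AddCircle (1 : ℝ)) = 0 := by
    rw [AddCircle.coe_sub, h, sub_self]
  obtain ⟨n, hn⟩ := (AddCircle.coe_eq_zero_iff (1 : ℝ)).mp h1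
  refine ⟨n, ?_⟩
  rw [zsmul_eq_mul, mul_one] at hn
  linarith

theorem cl_half {s : ℝ}
    (h : ((cl s : ℝ) : AddCircle (1 : ℝ)) = ((1 / 2 : ℝ) : AddCircle (1 : ℝ))) : s = 1 := by
  obtain ⟨n, hn⟩ := coe_eq_half h
  have h0 : 0 ≤ cl s := le_max_left _ _
  have h1 : cl s ≤ 1 := max_le zero_le_one (min_le_left _ _)
  have hn0 : n = 0 := by
    have h2 : (-1 : ℝ) < n := by linarith
    have h3 : (n : ℝ) < 1 := by linarith
    have h4 : (-1 : ℤ) < n := by exact_mod_cast h2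
    have h5 : n < 1 := by exact_mod_cast h3
    omega
  rw [hn0, Int.cast_zero, zero_add] at hn
  by_contra hs
  rcases lt_or_gt_of_ne hs with h2 | h2
  · have : cl s < 1 / 2 := by
      unfold cl
      exact max_lt (by norm_num) ((min_le_right _ _).trans_lt (by linarith))
    linarith
  · have : 1 / 2 < cl s := by
      unfold cl
      exact lt_max_of_lt_right (lt_min (by norm_num) (by linarith))
    linarith

open Classical in
/-- The map to the circle which turns once when one crosses the annulus. -/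
noncomputable def phi (a : OpenPartialHomeomorph ℂ ℂ) (w : ℂ) : AddCircle (1 : ℝ) :=
  if w ∈ a.target then ((cl ‖a.symm w‖ : ℝ) : AddCircle (1 : ℝ)) else 0

theorem continuous_phi (a : OpenPartialHomeomorph ℂ ℂ)
    (hs : a.source = {z : ℂ | 1 / 2 < ‖z‖ ∧ ‖z‖ < 2}) : Continuous (phi a) := by
  rw [continuous_iff_continuousAt]
  intro w
  by_cases hw : w ∈ a.target
  · have h1 : ContinuousAt (fun w => ((cl ‖a.symm w‖ : ℝ) : AddCircle (1 : ℝ))) w := by
      have h2 : ContinuousAt (fun w => a.symm w) w := a.symm.continuousAt hw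
      have h3 : ContinuousAt (fun w => cl ‖a.symm w‖) w :=
        continuous_cl.continuousAt.comp h2.norm
      exact (AddCircle.continuous_mk' (1 : ℝ)).continuousAt.comp h3
    refine h1.congr ?_
    filter_upwards [a.open_target.mem_nhds hw] with v hv
    rw [phi, if_pos hv]
  · have hZ : IsCompact {z : ℂ | 3 / 4 ≤ ‖z‖ ∧ ‖z‖ ≤ 5 / 4} := by
      have h1 : {z : ℂ | 3 / 4 ≤ ‖z‖ ∧ ‖z‖ ≤ 5 / 4} = closedBall 0 (5 / 4) ∩ {z | 3 / 4 ≤ ‖z‖} := by
        ext z
        simp only [mem_ofPred_eq, mem_inter_iff, mem_closedBall, dist_zero_right]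
        tauto
      rw [h1]
      exact (isCompact_closedBall _ _).inter_right (isClosed_le continuous_const continuous_norm)
    have hZs : {z : ℂ | 3 / 4 ≤ ‖z‖ ∧ ‖z‖ ≤ 5 / 4} ⊆ a.source := by
      rw [hs]
      rintro z ⟨h1, h2⟩
      exact ⟨by linarith, by linarith⟩
    have hK : IsClosed (a '' {z : ℂ | 3 / 4 ≤ ‖z‖ ∧ ‖z‖ ≤ 5 / 4}) :=
      (hZ.image_of_continuousOn (a.continuousOn.mono hZs)).isClosed
    have hw' : w ∉ a '' {z : ℂ | 3 / 4 ≤ ‖z‖ ∧ ‖z‖ ≤ 5 / 4} := by
      rintro ⟨z, hz, rfl⟩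
      exact hw (a.map_source (hZs hz))
    have h2 : (fun _ => (0 : AddCircle (1 : ℝ))) =ᶠ[𝓝 w] phi a := by
      filter_upwards [hK.isOpen_compl.mem_nhds hw'] with v hv
      unfold phi
      split_ifs with h
      · have h3 : ¬ (3 / 4 ≤ ‖a.symm v‖ ∧ ‖a.symm v‖ ≤ 5 / 4) := fun h4 =>
          hv ⟨a.symm v, h4, a.right_inv h⟩
        rcases le_or_gt (3 / 4) ‖a.symm v‖ with h4 | h4
        · have h5 : 5 / 4 < ‖a.symm v‖ := by
            by_contra h6
            exact h3 ⟨h4, not_lt.mp h6⟩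
          rw [cl_high h5.le, AddCircle.coe_period]
        · rw [cl_low h4.le, AddCircle.coe_zero]
      · rfl
    exact continuousAt_const.congr h2

theorem phi_half (a : OpenPartialHomeomorph ℂ ℂ) {w : ℂ}
    (h : phi a w = ((1 / 2 : ℝ) : AddCircle (1 : ℝ))) : w ∈ a '' sphere (0 : ℂ) 1 := by
  unfold phi at h
  split_ifs at h with h1
  · refine ⟨a.symm w, ?_, a.right_inv h1⟩
    rw [mem_sphere, dist_zero_right]
    exact cl_half h
  · rw [← AddCircle.coe_zero] at h
    obtain ⟨n, hn⟩ := coe_eq_half h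
    exfalso
    have h2 : (2 * n + 1 : ℤ) = 0 := by
      have : (2 * (n : ℝ) + 1) = 0 := by linarith
      exact_mod_cast this
    omega

/-- The core of an annulus in the plane separates its two sides. -/
theorem sep (a : OpenPartialHomeomorph ℂ ℂ)
    (hs : a.source = {z : ℂ | 1 / 2 < ‖z‖ ∧ ‖z‖ < 2}) :
    ¬ JoinedIn (a '' sphere (0 : ℂ) 1)ᶜ (a (3 / 4)) (a (3 / 2)) := by
  rintro ⟨γ, hγ⟩
  have hreal : ∀ t : ℝ, 3 / 4 ≤ t → t ≤ 3 / 2 → (t : ℂ) ∈ a.source ∧ ‖(t : ℂ)‖ = t := by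
    intro t h1 h2
    have h3 : ‖(t : ℂ)‖ = t := by
      rw [Complex.norm_real, Real.norm_eq_abs, abs_of_nonneg (by linarith)]
    refine ⟨?_, h3⟩
    rw [hs, mem_ofPred_eq, h3]
    exact ⟨by linarith, by linarith⟩
  have hphi : ∀ t : ℝ, 3 / 4 ≤ t → t ≤ 3 / 2 →
      phi a (a (t : ℂ)) = ((cl t : ℝ) : AddCircle (1 : ℝ)) := by
    intro t h1 h2
    obtain ⟨h3, h4⟩ := hreal t h1 h2
    rw [phi, if_pos (a.map_source h3), a.left_inv h3, h4]
  have e34 : ((3 / 4 : ℝ) : ℂ) = 3 / 4 := by norm_num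
  have e32 : ((3 / 2 : ℝ) : ℂ) = 3 / 2 := by norm_num
  obtain ⟨Φ, ⟨hΦ0, hΦ⟩, -⟩ := (AddCircle.isCoveringMap_coe (1 : ℝ)).existsUnique_continuousMap_lifts
    (⟨phi a, continuous_phi a hs⟩ : C(ℂ, AddCircle (1 : ℝ))) (a (3 / 4)) 0 (by
      have h1 := hphi (3 / 4) le_rfl (by norm_num)
      rw [e34] at h1
      change _ = phi a (a (3 / 4))
      rw [h1, cl_low le_rfl])
  have hΦ' : ∀ w, ((Φ w : ℝ) : AddCircle (1 : ℝ)) = phi a w := fun w => congrFun hΦ w
  -- along the radius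
  have hrad : Φ (a (3 / 2)) = 1 := by
    have hb : ∀ t : unitInterval, 3 / 4 ≤ (3 / 4 + 3 / 4 * (t : ℝ) : ℝ) ∧
        (3 / 4 + 3 / 4 * (t : ℝ) : ℝ) ≤ 3 / 2 := by
      intro t
      have h1 := t.2.1
      have h2 := t.2.2
      constructor <;> linarith
    have hc1 : Continuous fun t : unitInterval => Φ (a ((3 / 4 + 3 / 4 * (t : ℝ) : ℝ) : ℂ)) := by
      refine Φ.continuous.comp ?_
      refine a.continuousOn.comp_continuous ?_ fun t => (hreal _ (hb t).1 (hb t).2).1
      fun_prop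
    have hc2 : Continuous fun t : unitInterval => cl (3 / 4 + 3 / 4 * (t : ℝ)) := by
      refine continuous_cl.comp ?_
      fun_prop
    have h1 := (AddCircle.isCoveringMap_coe (1 : ℝ)).eq_of_comp_eq hc1 hc2 (by
      funext t
      change ((Φ _ : ℝ) : AddCircle (1 : ℝ)) = _
      rw [hΦ', hphi _ (hb t).1 (hb t).2]
      rfl) 0 (by
        simp only [Set.Icc.coe_zero, mul_zero, add_zero]
        rw [e34, hΦ0, cl_low le_rfl])
    have h2 := congrFun h1 1
    simp only [Set.Icc.coe_one, mul_one] at h2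
    have e : (3 / 4 + 3 / 4 : ℝ) = 3 / 2 := by norm_num
    rw [e, e32, cl_high (by norm_num)] at h2
    exact h2
  -- along the path
  obtain ⟨t, ht⟩ := mem_range_of_exists_le_of_exists_ge (c := (1 / 2 : ℝ))
    (Φ.continuous.comp γ.continuous)
    ⟨0, by simp only [Function.comp_apply, γ.source, hΦ0]; norm_num⟩
    ⟨1, by simp only [Function.comp_apply, γ.target, hrad]; norm_num⟩
  refine hγ t (phi_half a ?_)
  rw [← hΦ', ← ht]
  rfl

theorem goalEX3.{v} : GoalEX3.{v} := by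
  intro X _ _ _ _ E hT hN hP f F hF x hx hinf
  obtain ⟨J, hJs, hxJ⟩ := hP x hx
  have : Nonempty X := ⟨x⟩
  obtain ⟨i, hi⟩ : ∃ i : OpenPartialHomeomorph X (OnePoint X),
      i = OnePoint.isOpenEmbedding_coe.toOpenPartialHomeomorph _ := ⟨_, rfl⟩
  have his : i.source = univ := by rw [hi]; rfl
  have hit : i.target = range ((↑) : X → OnePoint X) := by rw [hi]; simp
  have hic : ∀ y : X, i y = (y : OnePoint X) := fun y => by rw [hi]; rfl
  have hiinv : ∀ y : X, i.symm (y : OnePoint X) = y := fun y => by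
    rw [← hic y]
    exact i.left_inv (by rw [his]; trivial)
  obtain ⟨j, hj⟩ : ∃ j : OpenPartialHomeomorph X ℂ,
      j = i.trans (F.toOpenPartialHomeomorph.trans (i.symm.trans J.symm)) := ⟨_, rfl⟩
  -- the compact set
  have hO : IsOpen (F ⁻¹' (((↑) : X → OnePoint X) '' J.target)) :=
    (OnePoint.isOpen_image_coe.mpr J.open_target).preimage F.continuous
  have hmem : OnePoint.infty ∈ F ⁻¹' (((↑) : X → OnePoint X) '' J.target) := by
    rw [mem_preimage, hinf]
    exact mem_image_of_mem _ hxJ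
  have hL := ((OnePoint.isOpen_iff_of_mem hmem).mp hO).2
  obtain ⟨A, hAs, hAL, hAJ⟩ := hN _ hL
  -- the source of `j`
  have hjs : ∀ y : X, y ∉ (((↑) : X → OnePoint X) ⁻¹'
      (F ⁻¹' (((↑) : X → OnePoint X) '' J.target)))ᶜ ∪ E → y ∈ j.source := by
    intro y hy
    rw [mem_union, not_or, notMem_compl_iff] at hy
    obtain ⟨y', hy', hFy⟩ := hy.1
    rw [hj]
    simp only [OpenPartialHomeomorph.trans_source, mem_inter_iff, mem_preimage,
      OpenPartialHomeomorph.symm_source, Homeomorph.toOpenPartialHomeomorph_source, mem_univ,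
      true_and, his, hic, hit, Homeomorph.toOpenPartialHomeomorph_apply]
    rw [← hFy, hiinv]
    exact ⟨⟨y', rfl⟩, hy'⟩
  have hAj : ∀ z ∈ A.source, A z ∈ j.source := fun z hz => hjs _ (hAL z hz)
  refine sep (A.trans j) ?_ ?_
  · rw [OpenPartialHomeomorph.trans_source]
    rw [← hAs]
    exact inter_eq_left.mpr hAj
  · have h1 := hAJ.map_continuousOn (f := j) (j.continuousOn.mono fun y hy => hjs y fun h =>
      hy (Or.inl h))
    refine h1.mono ?_
    rintro w ⟨y, hy, rfl⟩ ⟨z, hz, hzy⟩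
    have hzs : z ∈ A.source := by
      rw [hAs]
      rw [mem_sphere, dist_zero_right] at hz
      rw [mem_ofPred_eq, hz]
      norm_num
    have hyz : A z = y := j.injOn (hAj z hzs) (hjs y fun h => hy (Or.inl h)) hzy
    exact hy (Or.inr ⟨z, hz, hyz⟩)

end Pool.Agent.Helper39.LN
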